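import Pool.Agent.Helper83.TU.TT

/-!
# TU module LIN (MP_ed3816_nt): first order expansion of the group law
-/

namespace GWA

section LIN

variable {K : Type} [NormedField K] [Algebra GaussianInt K] [NeZero (2 : K)] [DecidableEq K]
  {π : GaussianInt}

theorem LHU.norm_tt_lt_one (h : LHU K π) {d : Kˣ} (hd : ‖(d : K)‖ = 1) {P : E (d : K)}
    (hP : P ∈ nb π (d : K) 0) : ‖tt P‖ < 1 := by
  have h1 := (h.mem_nb_unit hd hP 0).1 hP
  rw [zero_add, pow_one] at h1
  exact lt_of_le_of_lt h1 h.norm_pi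

/-- first order expansion of the group law at an integral point -/
theorem LHU.nx_add_small (h : LHU K π) {d : Kˣ} (hd : ‖(d : K)‖ = 1) {P η : E (d : K)}
    (hP : P ≠ 0) (hx : ‖nx P‖ ≤ 1) (hη : η ∈ nb π (d : K) 0) :
    P + η ≠ 0 ∧ ‖nx (P + η) - nx P + 2 * (yc P / d) * tt η‖ ≤ ‖tt η‖ ^ 2 := by
  have hd0 : (d : K) ≠ 0 := d.ne_zero
  by_cases hη0 : η = 0
  · subst hη0
    rw [add_zero]
    refine ⟨hP, ?_⟩
    rw [ftt_zero, sub_self, mul_zero, add_zero, norm_zero]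
    positivity
  have h1 := h.norm_nx_sq hd0 hη0 hη
  have ht1 := h.norm_tt_lt_one hd hη
  obtain ⟨hW0, htZ⟩ := h.norm_tt hd0 hη0 hη
  have hXn : ‖xc P‖ ≤ 1 := by
    rw [xc_eq hd0, norm_mul, hd, one_mul]; exact hx
  have hZn : 1 < ‖xc η‖ := by
    rw [xc_eq hd0, norm_mul, hd, one_mul]; exact h1
  have hZ0 : xc η ≠ 0 := by
    intro h0
    rw [h0, norm_zero] at hZn
    linarith
  have hne : xc P ≠ xc η := by
    intro h0
    rw [h0] at hXn
    linarith
  obtain ⟨hne0, hadd⟩ := xc_add_mul hP hη0 hne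
  refine ⟨hne0, ?_⟩
  have hY := curve_eq P
  have hW := curve_eq η
  have hYn : ‖yc P‖ ≤ 1 := by
    have h2 : ‖yc P‖ ^ 2 ≤ 1 := by
      rw [← norm_pow, hY]
      refine (h.norm_sub_le _ _).trans (max_le ?_ ?_)
      · rw [norm_pow]; exact pow_le_one₀ (norm_nonneg _) hXn
      · rw [norm_mul, norm_pow, hd, one_pow, one_mul]; exact hXn
    have h3 := norm_nonneg (yc P)
    nlinarith
  set X := xc P with hXd
  set Y := yc P with hYd
  set Z := xc η with hZd
  set W := yc η with hWd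
  set t := tt η with htd
  have htW : t * W = Z := by
    rw [htd, tt, ← hZd, ← hWd]
    field_simp
  have htZZ : t * Z ^ 2 = W + (d : K) ^ 2 * t := by
    apply mul_right_cancel₀ hW0
    linear_combination (Z ^ 2 - (d : K) ^ 2) * htW - hW
  have key : (xc (P + η) - X + 2 * Y * t) * (Z - X) ^ 2 =
      (3 * X ^ 2 - (d : K) ^ 2) * Z - (d : K) ^ 2 * X - X ^ 3 + 2 * Y * (d : K) ^ 2 * t
        - 4 * Y * t * Z * X + 2 * Y * t * X ^ 2 := by
    linear_combination hadd + 2 * Y * htZZ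
  have hn : ∀ m : ℕ, ∀ [m.AtLeastTwo], ‖(OfNat.ofNat m : K)‖ ≤ 1 := fun m _ => h.norm_ofNat_le m
  have hZX : ‖Z - X‖ = ‖Z‖ := by
    rw [sub_eq_add_neg, h.norm_sum_eq]
    rw [norm_neg]
    exact lt_of_le_of_lt hXn hZn
  have hbound : ‖(3 * X ^ 2 - (d : K) ^ 2) * Z - (d : K) ^ 2 * X - X ^ 3 + 2 * Y * (d : K) ^ 2 * t
        - 4 * Y * t * Z * X + 2 * Y * t * X ^ 2‖ ≤ ‖Z‖ := by
    have hX0 := norm_nonneg X
    have hY0 := norm_nonneg Y
    have hZ0' := norm_nonneg Z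
    have ht0 := norm_nonneg t
    have b2 : ‖(2 : K)‖ ≤ 1 := hn 2
    have b3 : ‖(3 : K)‖ ≤ 1 := hn 3
    have b4 : ‖(4 : K)‖ ≤ 1 := hn 4
    have hX2 : ‖X‖ ^ 2 ≤ 1 := pow_le_one₀ hX0 hXn
    have hX3 : ‖X‖ ^ 3 ≤ 1 := pow_le_one₀ hX0 hXn
    refine (h.ultra _ _).trans (max_le ((h.norm_sub_le _ _).trans (max_le
      ((h.ultra _ _).trans (max_le ((h.norm_sub_le _ _).trans (max_le
      ((h.norm_sub_le _ _).trans (max_le ?_ ?_)) ?_)) ?_)) ?_)) ?_)
    · rw [norm_mul]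
      refine mul_le_of_le_one_left hZ0' ((h.norm_sub_le _ _).trans (max_le ?_ ?_))
      · rw [norm_mul, norm_pow]
        exact mul_le_one₀ b3 (by positivity) hX2
      · rw [norm_pow, hd, one_pow]
    · rw [norm_mul, norm_pow, hd, one_pow, one_mul]
      exact hXn.trans hZn.le
    · rw [norm_pow]
      exact hX3.trans hZn.le
    · rw [norm_mul, norm_mul, norm_mul, norm_pow, hd, one_pow, mul_one]
      exact (mul_le_one₀ (mul_le_one₀ b2 hY0 hYn) ht0 ht1.le).trans hZn.le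
    · rw [norm_mul, norm_mul, norm_mul, norm_mul]
      calc ‖(4 : K)‖ * ‖Y‖ * ‖t‖ * ‖Z‖ * ‖X‖ = (‖(4 : K)‖ * ‖Y‖ * ‖t‖ * ‖X‖) * ‖Z‖ := by ring
        _ ≤ ‖Z‖ := mul_le_of_le_one_left hZ0'
            (mul_le_one₀ (mul_le_one₀ (mul_le_one₀ b4 hY0 hYn) ht0 ht1.le) hX0 hXn)
    · rw [norm_mul, norm_mul, norm_mul, norm_pow]
      exact (mul_le_one₀ (mul_le_one₀ (mul_le_one₀ b2 hY0 hYn) ht0 ht1.le)
        (by positivity) hX2).trans hZn.le
  rw [← key, norm_mul, norm_pow, hZX] at hbound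
  have hZp : 0 < ‖Z‖ := by linarith
  have h5 : ‖xc (P + η) - X + 2 * Y * t‖ ≤ ‖t‖ ^ 2 := by
    have e : ‖xc (P + η) - X + 2 * Y * t‖ * ‖Z‖ * ‖Z‖ ≤ ‖t‖ ^ 2 * ‖Z‖ * ‖Z‖ := by
      rw [htZ, one_mul]
      calc ‖xc (P + η) - X + 2 * Y * t‖ * ‖Z‖ * ‖Z‖ =
            ‖xc (P + η) - X + 2 * Y * t‖ * ‖Z‖ ^ 2 := by ring
        _ ≤ ‖Z‖ := hbound
    exact le_of_mul_le_mul_right (le_of_mul_le_mul_right e hZp) hZp
  have e : nx (P + η) - nx P + 2 * (Y / d) * t = (xc (P + η) - X + 2 * Y * t) / d := by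
    unfold nx
    rw [← hXd]
    ring
  rw [e, norm_div, hd, div_one]
  exact h5

omit [NeZero (2 : K)] [DecidableEq K] in
theorem LHU.norm_yc_ord (_h : LHU K π) {d : Kˣ} (hd : ‖(d : K)‖ = 1) {P : E (d : K)}
    (hP : Ord P) : ‖yc P / (d : K)‖ = 1 := by
  have h1 := congrArg norm (sq_ff_nx d.ne_zero P)
  rw [norm_pow, norm_mul, hd, hP.2.1, one_mul] at h1
  have h2 := norm_nonneg (yc P / (d : K))
  nlinarith

omit [Algebra GaussianInt K] [NeZero (2 : K)] [DecidableEq K] in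
theorem Ord.ne_zero {d : K} {P : E d} (hP : Ord P) : P ≠ 0 := by
  rintro rfl
  have := hP.2.1
  rw [nx_zero, ff] at this
  simp at this

/-- comparison of two integral points with nearly equal coordinates -/
theorem LHU.tt_of_close (h : LHU K π) {d : Kˣ} (hd : ‖(d : K)‖ = 1) {P P' : E (d : K)}
    (hP : Ord P) (hP' : P' ≠ 0) {ρ : ℝ} (hρ : ρ < 1) (hx : ‖nx P' - nx P‖ ≤ ρ)
    (hy : ‖yc P' / d - yc P / d‖ < 1) :
    P' - P ∈ nb π (d : K) 0 ∧
      ‖2 * (yc P / d) * tt (P' - P) + (nx P' - nx P)‖ ≤ ρ ^ 2 ∧ ‖tt (P' - P)‖ ≤ ρ := by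
  have hd0 : (d : K) ≠ 0 := d.ne_zero
  have hP0 : P ≠ 0 := hP.ne_zero
  have hρ0 : 0 ≤ ρ := (norm_nonneg _).trans hx
  have hn2 : ‖(2 : K)‖ = 1 := h.norm_two h.odd
  have hYn := h.norm_yc_ord hd hP
  have hxn : ‖nx P‖ ≤ 1 := hP.1
  have hY1 : ‖yc P‖ = 1 := by
    rwa [norm_div, hd, div_one] at hYn
  have hmem : P' - P ∈ nb π (d : K) 0 := by
    by_cases hne : nx P' = nx P
    · rcases (nx_eq_iff hd0 hP' hP0).1 hne with h1 | h1
      · rw [h1, sub_self]; exact zero_mem_nbh _ _ _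
      · exfalso
        rw [h1, yc_neg] at hy
        have e : -yc P / (d : K) - yc P / d = -(2 * (yc P / d)) := by ring
        rw [e, norm_neg, norm_mul, hn2, hYn, one_mul] at hy
        exact lt_irrefl _ hy
    · have hne' : xc P' ≠ xc P := by
        intro h0
        apply hne
        unfold nx
        rw [h0]
      obtain ⟨hs0, hs⟩ := xc_sub_mul hP' hP0 hne'
      rw [h.mem_nb_zero_iff hd0]
      right
      have hXn : ‖xc P‖ ≤ 1 := by
        rw [xc_eq hd0, norm_mul, hd, one_mul]; exact hxn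
      have hdX : ‖xc P' - xc P‖ ≤ ρ := by
        rw [xc_eq hd0 P', xc_eq hd0 P, ← mul_sub, norm_mul, hd, one_mul]; exact hx
      have hXn' : ‖xc P'‖ ≤ 1 := by
        have e : xc P' = (xc P' - xc P) + xc P := by ring
        rw [e]
        exact (h.ultra _ _).trans (max_le (hdX.trans hρ.le) hXn)
      have hdY : ‖yc P' - yc P‖ < 1 := by
        rw [← sub_div, norm_div, hd, div_one] at hy
        exact hy
      have hcp := curve_eq P
      have e : (xc P' * xc P - (d : K) ^ 2) * (xc P' + xc P) + 2 * yc P' * yc P =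
          2 * 2 * yc P ^ 2 + ((xc P' - xc P) * (xc P * (xc P' + xc P) + (xc P ^ 2 - (d : K) ^ 2)) +
            2 * yc P * (yc P' - yc P)) := by
        linear_combination -2 * hcp
      have h4 : ‖2 * 2 * yc P ^ 2‖ = 1 := by
        rw [norm_mul, norm_mul, hn2, norm_pow, hY1]; norm_num
      have h5 : ‖(xc P' - xc P) * (xc P * (xc P' + xc P) + (xc P ^ 2 - (d : K) ^ 2)) +
            2 * yc P * (yc P' - yc P)‖ < 1 := by
        refine lt_of_le_of_lt (h.ultra _ _) (max_lt ?_ ?_)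
        · rw [norm_mul]
          refine lt_of_le_of_lt (mul_le_of_le_one_right (norm_nonneg _) ?_)
            (lt_of_le_of_lt hdX hρ)
          refine (h.ultra _ _).trans (max_le ?_ ((h.norm_sub_le _ _).trans (max_le ?_ ?_)))
          · rw [norm_mul]
            exact mul_le_one₀ hXn (norm_nonneg _) ((h.ultra _ _).trans (max_le hXn' hXn))
          · rw [norm_pow]; exact pow_le_one₀ (norm_nonneg _) hXn
          · rw [norm_pow, hd, one_pow]
        · rw [norm_mul, norm_mul, hn2, hY1, one_mul, one_mul]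
          exact hdY
      rw [e] at hs
      have h6 := congrArg norm hs
      rw [h.norm_sum_eq (by rw [h4]; exact h5), h4, norm_mul, norm_pow] at h6
      have h7 : 0 < ‖xc P' - xc P‖ := norm_pos_iff.2 (sub_ne_zero.2 hne')
      have h8 : ‖xc P' - xc P‖ ^ 2 < 1 :=
        pow_lt_one₀ h7.le (lt_of_le_of_lt hdX hρ) two_ne_zero
      have h9 : 1 < ‖xc (P' - P)‖ := by
        by_contra hc
        push Not at hc
        have : ‖xc (P' - P)‖ * ‖xc P' - xc P‖ ^ 2 < 1 :=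
          lt_of_le_of_lt (mul_le_of_le_one_left (by positivity) hc) h8
        linarith
      rw [nx, norm_div, hd, div_one]
      exact h9
  have ht1 := h.norm_tt_lt_one hd hmem
  obtain ⟨-, h2⟩ := h.nx_add_small hd hP0 hxn hmem
  rw [add_sub_cancel] at h2
  have ht : ‖tt (P' - P)‖ ≤ ρ := by
    have e : 2 * (yc P / d) * tt (P' - P) =
        (nx P' - nx P + 2 * (yc P / d) * tt (P' - P)) - (nx P' - nx P) := by ring
    have h3 : ‖tt (P' - P)‖ = ‖2 * (yc P / (d : K)) * tt (P' - P)‖ := by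
      rw [norm_mul, norm_mul, hn2, hYn, one_mul, one_mul]
    have h4 : ‖tt (P' - P)‖ ≤ max (‖tt (P' - P)‖ ^ 2) ρ := by
      conv_lhs => rw [h3, e]
      exact (h.norm_sub_le _ _).trans (max_le_max h2 hx)
    rcases le_max_iff.1 h4 with h5 | h5
    · have h6 := norm_nonneg (tt (P' - P))
      have h7 : ‖tt (P' - P)‖ = 0 := by
        by_contra hc
        have h8 : 0 < ‖tt (P' - P)‖ := lt_of_le_of_ne h6 (Ne.symm hc)
        nlinarith
      rw [h7]
      exact hρ0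
    · exact h5
  refine ⟨hmem, ?_, ht⟩
  have e : 2 * (yc P / (d : K)) * tt (P' - P) + (nx P' - nx P) =
      nx P' - nx P + 2 * (yc P / d) * tt (P' - P) := by ring
  rw [e]
  refine h2.trans ?_
  have h6 := norm_nonneg (tt (P' - P))
  gcongr

end LIN

end GWA
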