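import Pool.Agent.Helper66.TU.Defs

/-!
# TU module TT (MP_ed3816_nt): the parameter at infinity over a local field
-/

namespace GWA

section TT

variable {K : Type} [NormedField K] [Algebra GaussianInt K] [NeZero (2 : K)] [DecidableEq K]
  {π : GaussianInt}

theorem LHU.nb_sub' (h : LHU K π) (d : Kˣ) (n : ℕ) {P Q : E (d : K)}
    (hP : P ∈ nb π (d : K) n) (hQ : Q ∈ nb π (d : K) n) : P - Q ∈ nb π (d : K) n := by
  rw [sub_eq_add_neg]
  exact h.nb_add d.ne_zero n hP (neg_mem_nbh hQ)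

theorem LHU.tt_sub_norm (h : LHU K π) (d : Kˣ) {P Q : E (d : K)}
    (hP : P ∈ nb π (d : K) 0) (hQ : Q ∈ nb π (d : K) 0) : ‖tt (P - Q)‖ = ‖tt P - tt Q‖ := by
  have h1 := h.tt_add d.ne_zero (h.nb_sub' d 0 hP hQ) hQ
  rw [sub_add_cancel] at h1
  have h2 : ‖tt P - tt (P - Q) - tt Q‖ ≤ ‖algebraMap GaussianInt K π‖ ^ 2 * ‖tt (P - Q)‖ :=
    h1.trans (by gcongr; exact min_le_left _ _)
  have e : tt P - tt Q = tt (P - Q) + (tt P - tt (P - Q) - tt Q) := by ring
  by_cases h0 : tt (P - Q) = 0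
  · rw [h0, norm_zero, mul_zero, sub_zero] at h2
    rw [h0, norm_zero]
    exact (le_antisymm h2 (norm_nonneg _)).symm
  · rw [e, h.norm_sum_eq]
    refine lt_of_le_of_lt h2 (mul_lt_of_lt_one_left (norm_pos_iff.2 h0) ?_)
    exact pow_lt_one₀ (norm_nonneg _) h.norm_pi two_ne_zero

theorem LHU.mem_nb_unit (h : LHU K π) {d : Kˣ} (hd : ‖(d : K)‖ = 1) {P : E (d : K)}
    (hP : P ∈ nb π (d : K) 0) (n : ℕ) :
    P ∈ nb π (d : K) n ↔ ‖tt P‖ ≤ ‖algebraMap GaussianInt K π‖ ^ (n + 1) := by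
  have h3 := h.norm_pi_pos
  rw [h.mem_nb_iff_tt d.ne_zero hP, hd, mul_one]
  by_cases hP0 : P = 0
  · rw [hP0, ftt_zero, norm_zero]
    simp only [ne_eq, OfNat.ofNat_ne_zero, not_false_eq_true, zero_pow]
    exact ⟨fun _ => by positivity, fun _ => by positivity⟩
  have ht := h.tt_ne d.ne_zero hP0 hP
  obtain ⟨j, hj⟩ := h.unif _ ht
  rw [hj]
  rw [← zpow_natCast, ← zpow_mul, ← zpow_natCast, ← zpow_natCast,
    zpow_le_zpow_iff_right_of_lt_one₀ h3 h.norm_pi, zpow_le_zpow_iff_right_of_lt_one₀ h3 h.norm_pi]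
  push_cast
  omega

theorem LHU.tt_smul_rel_aux (h : LHU K π) (d : Kˣ) (β : GaussianInt) {P : E (d : K)}
    (hP : P ∈ nb π (d : K) 0) (j : ℕ) :
    ‖tt ((π ^ j * β) • P) - algebraMap GaussianInt K (π ^ j * β) * tt P‖ ≤
      ‖algebraMap GaussianInt K π‖ * (‖algebraMap GaussianInt K π‖ ^ j * ‖tt P‖) := by
  have h3 := h.norm_pi_pos
  induction j with
  | zero =>
    rw [pow_zero, one_mul, pow_zero, one_mul]
    refine (h.tt_smul d β hP).trans ?_
    gcongr
    rw [pow_two]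
    exact mul_le_of_le_one_left h3.le h.norm_pi.le
  | succ j ih =>
    have hR : (π ^ j * β) • P ∈ nb π (d : K) 0 := h.nb_smul d 0 _ hP
    have h1 := h.tt_smul d π hR
    have h4 : ‖tt ((π ^ j * β) • P)‖ ≤ ‖algebraMap GaussianInt K π‖ ^ j * ‖tt P‖ := by
      rw [mul_smul, h.tt_pi_pow d (h.nb_smul d 0 β hP)]
      gcongr
      refine (h.tt_smul_le d β hP).trans (max_le ?_ ?_)
      · exact mul_le_of_le_one_left (norm_nonneg _) (h.norm_O_le _)
      · exact mul_le_of_le_one_left (norm_nonneg _) (pow_le_one₀ h3.le h.norm_pi.le)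
    have e1 : π ^ (j + 1) * β = π * (π ^ j * β) := by ring
    rw [e1, mul_smul, map_mul]
    have e : tt (π • (π ^ j * β) • P) -
        algebraMap GaussianInt K π * algebraMap GaussianInt K (π ^ j * β) * tt P =
        (tt (π • (π ^ j * β) • P) - algebraMap GaussianInt K π * tt ((π ^ j * β) • P)) +
        algebraMap GaussianInt K π * (tt ((π ^ j * β) • P) -
          algebraMap GaussianInt K (π ^ j * β) * tt P) := by ring
    rw [e]
    refine (h.ultra _ _).trans (max_le (h1.trans ?_) ?_)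
    · calc ‖algebraMap GaussianInt K π‖ ^ 2 * ‖tt ((π ^ j * β) • P)‖
          ≤ ‖algebraMap GaussianInt K π‖ ^ 2 * (‖algebraMap GaussianInt K π‖ ^ j * ‖tt P‖) := by
            gcongr
        _ = _ := by ring
    · rw [norm_mul]
      calc ‖algebraMap GaussianInt K π‖ * ‖tt ((π ^ j * β) • P) -
            algebraMap GaussianInt K (π ^ j * β) * tt P‖
          ≤ ‖algebraMap GaussianInt K π‖ * (‖algebraMap GaussianInt K π‖ *
            (‖algebraMap GaussianInt K π‖ ^ j * ‖tt P‖)) := by gcongr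
        _ = _ := by ring

theorem LHU.tt_smul_rel (h : LHU K π) (d : Kˣ) (α : GaussianInt) {P : E (d : K)}
    (hP : P ∈ nb π (d : K) 0) :
    ‖tt (α • P) - algebraMap GaussianInt K α * tt P‖ ≤
      ‖algebraMap GaussianInt K π‖ * (‖algebraMap GaussianInt K α‖ * ‖tt P‖) := by
  by_cases hα : α = 0
  · rw [hα, zero_smul, ftt_zero, map_zero, zero_mul, sub_zero, norm_zero, zero_mul, mul_zero]
  have hfin : FiniteMultiplicity π α := FiniteMultiplicity.of_prime_left h.prime hα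
  obtain ⟨β, hβ, hβ'⟩ := hfin.exists_eq_pow_mul_and_not_dvd
  have h1 := h.tt_smul_rel_aux d β hP (multiplicity π α)
  have e : ‖algebraMap GaussianInt K α‖ = ‖algebraMap GaussianInt K π‖ ^ (multiplicity π α) := by
    conv_lhs => rw [hβ]
    rw [map_mul, map_pow, norm_mul, norm_pow, h.norm_eq_one hβ', mul_one]
  rw [← hβ] at h1
  rw [e]
  exact h1

theorem LHU.exists_tt (h : LHU K π) {d : Kˣ} (hd : ‖(d : K)‖ = 1) {t : K} (ht : ‖t‖ < 1) :
    ∃ P ∈ nb π (d : K) 0, tt P = t := by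
  by_cases ht0 : t = 0
  · exact ⟨0, zero_mem_nbh _ _ _, by rw [ftt_zero, ht0]⟩
  have hn2 : ‖(2 : K)‖ = 1 := h.norm_two h.odd
  have hn4 : ‖(4 : K)‖ = 1 := by
    have : (4 : K) = 2 * 2 := by norm_num
    rw [this, norm_mul, hn2, one_mul]
  have h20 : (2 : K) ≠ 0 := two_ne_zero
  have htp : 0 < ‖t‖ := norm_pos_iff.2 ht0
  have hx : ‖(1 + 4 * (d : K) ^ 2 * t ^ 4) - 1‖ < ‖(4 : K)‖ := by
    rw [add_sub_cancel_left, norm_mul, norm_mul, norm_pow, norm_pow, hd, hn4]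
    simp only [one_pow, one_mul]
    exact pow_lt_one₀ (norm_nonneg _) ht (by norm_num)
  obtain ⟨w, hw, hw1⟩ := h.sqrt hx
  have hw2 : ‖w - 1‖ < 1 := by
    rw [hn2, mul_one] at hw1
    rw [hn4] at hx
    exact lt_of_le_of_lt hw1 hx
  have hw3 : ‖1 + w‖ = 1 := by
    have e : 1 + w = 2 + (w - 1) := by ring
    rw [e, h.norm_sum_eq (by rw [hn2]; exact hw2), hn2]
  set X : K := (1 + w) / (2 * t ^ 2) with hX
  have hXn : ‖X‖ = (‖t‖ ^ 2)⁻¹ := by
    rw [hX, norm_div, hw3, norm_mul, hn2, norm_pow, one_mul, one_div]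
  have hX1 : 1 < ‖X‖ := by
    rw [hXn]
    exact (one_lt_inv₀ (by positivity)).2 (pow_lt_one₀ htp.le ht two_ne_zero)
  have hX0 : X ≠ 0 := by
    intro h0
    rw [h0, norm_zero] at hX1
    linarith
  have hq : X ^ 2 * t ^ 2 = X + (d : K) ^ 2 * t ^ 2 := by
    have hw' : w ^ 2 = 1 + 4 * (d : K) ^ 2 * t ^ 4 := hw
    rw [hX]
    field_simp
    linear_combination hw'
  have hc : (X / t) ^ 2 = X ^ 3 - (d : K) ^ 2 * X := by
    rw [div_pow, div_eq_iff (pow_ne_zero 2 ht0)]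
    linear_combination -X * hq
  refine ⟨mkP d.ne_zero X (X / t) hc, ?_, ?_⟩
  · rw [h.mem_nb_zero_iff d.ne_zero]
    right
    rw [nx, xc_mkP, norm_div, hd, div_one]
    exact hX1
  · rw [tt, xc_mkP, yc_mkP]
    field_simp

theorem LHU.complete_nb (h : LHU K π) {d : Kˣ} (hd : ‖(d : K)‖ = 1) (P : ℕ → E (d : K))
    (h0 : ∀ n, P n ∈ nb π (d : K) 0) (hP : ∀ n, P (n + 1) - P n ∈ nb π (d : K) n) :
    ∃ R ∈ nb π (d : K) 0, ∀ n, R - P n ∈ nb π (d : K) n := by
  have h3 := h.norm_pi_pos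
  have := h.complete
  have hs : ∀ n, ‖tt (P (n + 1)) - tt (P n)‖ ≤ ‖algebraMap GaussianInt K π‖ ^ (n + 1) := by
    intro n
    rw [← h.tt_sub_norm d (h0 (n + 1)) (h0 n)]
    exact (h.mem_nb_unit hd (h.nb_le0 (hP n)) n).1 (hP n)
  have hs' : ∀ n m, n ≤ m →
      ‖tt (P m) - tt (P n)‖ ≤ ‖algebraMap GaussianInt K π‖ ^ (n + 1) := by
    intro n m hnm
    induction m, hnm using Nat.le_induction with
    | base => rw [sub_self, norm_zero]; positivity
    | succ m hm ih =>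
      have e : tt (P (m + 1)) - tt (P n) = (tt (P (m + 1)) - tt (P m)) + (tt (P m) - tt (P n)) := by
        ring
      rw [e]
      refine (h.ultra _ _).trans (max_le ((hs m).trans ?_) ih)
      exact pow_le_pow_of_le_one h3.le h.norm_pi.le (by omega)
  have hcau : CauchySeq (fun n => tt (P n)) := by
    refine cauchySeq_of_le_geometric ‖algebraMap GaussianInt K π‖ 1 h.norm_pi fun n => ?_
    rw [dist_eq_norm, ← norm_neg, neg_sub, one_mul]
    refine (hs n).trans ?_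
    exact pow_le_pow_of_le_one h3.le h.norm_pi.le (by omega)
  obtain ⟨t, ht⟩ := cauchySeq_tendsto_of_complete hcau
  have hlim : ∀ n, ‖t - tt (P n)‖ ≤ ‖algebraMap GaussianInt K π‖ ^ (n + 1) := by
    intro n
    have h4 : Filter.Tendsto (fun m => ‖tt (P m) - tt (P n)‖) Filter.atTop
        (nhds ‖t - tt (P n)‖) := (ht.sub_const _).norm
    refine le_of_tendsto h4 ?_
    filter_upwards [Filter.eventually_ge_atTop n] with m hm
    exact hs' n m hm
  have ht1 : ‖t‖ < 1 := by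
    have e : t = (t - tt (P 0)) + tt (P 0) := by ring
    rw [e]
    refine lt_of_le_of_lt (h.ultra _ _) (max_lt ?_ ?_)
    · refine lt_of_le_of_lt (hlim 0) ?_
      rw [zero_add, pow_one]
      exact h.norm_pi
    · refine lt_of_le_of_lt ((h.mem_nb_unit hd (h0 0) 0).1 (h0 0)) ?_
      rw [zero_add, pow_one]
      exact h.norm_pi
  obtain ⟨R, hR, hRt⟩ := h.exists_tt hd ht1
  refine ⟨R, hR, fun n => ?_⟩
  rw [h.mem_nb_unit hd (h.nb_sub' d 0 hR (h0 n)) n, h.tt_sub_norm d hR (h0 n), hRt]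
  exact hlim n

end TT

end GWA
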