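import Pool.Agent.Helper83.TU.TT

/-!
# TU module DG (MP_ed3816_nt): digits
-/

namespace GWA

section RM

variable {K : Type} [NormedField K] [Algebra GaussianInt K] {k : Type} [Field k]
  [Algebra GaussianInt k] {r : K → k}

theorem RMap.zero (hr : RMap K k r) : r 0 = 0 :=
  (hr.eq_zero 0 (by rw [norm_zero]; exact zero_le_one)).2 (by rw [norm_zero]; exact zero_lt_one)

theorem RMap.neg (hr : RMap K k r) {x : K} (hx : ‖x‖ ≤ 1) : r (-x) = - r x := by
  have h1 := hr.add x (-x) hx (by rwa [norm_neg])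
  rw [add_neg_cancel, hr.zero] at h1
  exact (neg_eq_of_add_eq_zero_right h1.symm).symm

theorem RMap.one (hr : RMap K k r) : r 1 = 1 := by
  have := hr.coe 1
  rwa [map_one, map_one] at this

theorem RMap.sub (hr : RMap K k r) {x y : K} (hx : ‖x‖ ≤ 1) (hy : ‖y‖ ≤ 1) :
    r (x - y) = r x - r y := by
  rw [sub_eq_add_neg, hr.add x (-y) hx (by rwa [norm_neg]), hr.neg hy, ← sub_eq_add_neg]

/-- elements with small difference have the same residue -/
theorem RMap.add_small (hr : RMap K k r) {x e : K} (hx : ‖x‖ ≤ 1) (he : ‖e‖ < 1) :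
    r (x + e) = r x := by
  rw [hr.add x e hx he.le, (hr.eq_zero e he.le).2 he, add_zero]

/-- elements have the same residue iff their difference is small -/
theorem RMap.eq_iff (hr : RMap K k r) {π : GaussianInt} (h : LHU K π) {x y : K} (hx : ‖x‖ ≤ 1)
    (hy : ‖y‖ ≤ 1) : r x = r y ↔ ‖x - y‖ < 1 := by
  rw [← sub_eq_zero, ← hr.sub hx hy]
  exact hr.eq_zero _ ((h.norm_sub_le x y).trans (max_le hx hy))

end RM

section DG

variable {K : Type} [NormedField K] [Algebra GaussianInt K] [NeZero (2 : K)] [DecidableEq K]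
  {π : GaussianInt} {k : Type} [Field k] [Algebra GaussianInt k] {r : K → k}

theorem LHU.norm_dg (h : LHU K π) {d : Kˣ} (hd : ‖(d : K)‖ = 1) {n : ℕ}
    {P : E (d : K)} (hP : P ∈ nb π (d : K) n) :
    ‖tt P / algebraMap GaussianInt K π ^ (n + 1)‖ ≤ 1 := by
  have h3 := h.norm_pi_pos
  rw [norm_div, norm_pow, div_le_one (by positivity)]
  exact (h.mem_nb_unit hd (h.nb_le0 hP) n).1 hP

theorem dg_add (h : LHU K π) (hr : RMap K k r) {d : Kˣ} (hd : ‖(d : K)‖ = 1) {n : ℕ}
    {P Q : E (d : K)} (hP : P ∈ nb π (d : K) n) (hQ : Q ∈ nb π (d : K) n) :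
    dg r π n (P + Q) = dg r π n P + dg r π n Q := by
  have h3 := h.norm_pi_pos
  have h1 := h.tt_add d.ne_zero (h.nb_le0 hP) (h.nb_le0 hQ)
  have h2 := (h.mem_nb_unit hd (h.nb_le0 hP) n).1 hP
  unfold dg
  have e : tt (P + Q) / algebraMap GaussianInt K π ^ (n + 1) =
      (tt P / algebraMap GaussianInt K π ^ (n + 1) + tt Q / algebraMap GaussianInt K π ^ (n + 1)) +
      (tt (P + Q) - tt P - tt Q) / algebraMap GaussianInt K π ^ (n + 1) := by ring
  rw [e, hr.add_small ((h.ultra _ _).trans (max_le (h.norm_dg hd hP) (h.norm_dg hd hQ))),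
    hr.add _ _ (h.norm_dg hd hP) (h.norm_dg hd hQ)]
  rw [norm_div, norm_pow, div_lt_one (by positivity)]
  refine lt_of_le_of_lt (h1.trans ?_) (mul_lt_of_lt_one_left (by positivity)
    (pow_lt_one₀ (norm_nonneg _) h.norm_pi two_ne_zero))
  gcongr
  exact (min_le_left _ _).trans h2

theorem dg_neg (h : LHU K π) (hr : RMap K k r) {d : Kˣ} (hd : ‖(d : K)‖ = 1) {n : ℕ}
    {P : E (d : K)} (hP : P ∈ nb π (d : K) n) : dg r π n (-P) = - dg r π n P := by
  unfold dg
  rw [ftt_neg, neg_div, hr.neg (h.norm_dg hd hP)]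

theorem dg_eq_zero (h : LHU K π) (hr : RMap K k r) {d : Kˣ} (hd : ‖(d : K)‖ = 1) {n : ℕ}
    {P : E (d : K)} (hP : P ∈ nb π (d : K) n) :
    dg r π n P = 0 ↔ P ∈ nb π (d : K) (n + 1) := by
  have h3 := h.norm_pi_pos
  unfold dg
  rw [hr.eq_zero _ (h.norm_dg hd hP), h.mem_nb_unit hd (h.nb_le0 hP) (n + 1)]
  constructor
  · intro h1
    have h2 := h.disc1 h1
    rw [norm_div, norm_pow, div_le_iff₀ (by positivity)] at h2
    refine h2.trans (le_of_eq ?_)
    ring
  · intro h1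
    rw [norm_div, norm_pow, div_lt_one (by positivity)]
    refine lt_of_le_of_lt h1 ?_
    exact pow_lt_pow_right_of_lt_one₀ h3 h.norm_pi (by omega)

theorem dg_smul (h : LHU K π) (hr : RMap K k r) {d : Kˣ} (hd : ‖(d : K)‖ = 1) {n : ℕ}
    (α : GaussianInt) {P : E (d : K)} (hP : P ∈ nb π (d : K) n) :
    dg r π n (α • P) = algebraMap GaussianInt k α * dg r π n P := by
  have h3 := h.norm_pi_pos
  have h1 := h.tt_smul d α (h.nb_le0 hP)
  have h2 := (h.mem_nb_unit hd (h.nb_le0 hP) n).1 hP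
  unfold dg
  have e : tt (α • P) / algebraMap GaussianInt K π ^ (n + 1) =
      algebraMap GaussianInt K α * (tt P / algebraMap GaussianInt K π ^ (n + 1)) +
      (tt (α • P) - algebraMap GaussianInt K α * tt P) /
        algebraMap GaussianInt K π ^ (n + 1) := by ring
  have h4 : ‖algebraMap GaussianInt K α * (tt P / algebraMap GaussianInt K π ^ (n + 1))‖ ≤ 1 := by
    rw [norm_mul]
    exact mul_le_one₀ (h.norm_O_le α) (norm_nonneg _) (h.norm_dg hd hP)
  rw [e, hr.add_small h4, hr.mul _ _ (h.norm_O_le α) (h.norm_dg hd hP), hr.coe]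
  rw [norm_div, norm_pow, div_lt_one (by positivity)]
  refine lt_of_le_of_lt (h1.trans ?_) (mul_lt_of_lt_one_left (by positivity)
    (pow_lt_one₀ (norm_nonneg _) h.norm_pi two_ne_zero))
  gcongr

theorem dg_surj (h : LHU K π) (hr : RMap K k r) {d : Kˣ} (hd : ‖(d : K)‖ = 1) (n : ℕ) (c : k) :
    ∃ P ∈ nb π (d : K) n, dg r π n P = c := by
  have h3 := h.norm_pi_pos
  obtain ⟨x, hx, hxc⟩ := hr.surj c
  have h1 : ‖algebraMap GaussianInt K π ^ (n + 1) * x‖ ≤ ‖algebraMap GaussianInt K π‖ ^ (n + 1) := by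
    rw [norm_mul, norm_pow]
    exact mul_le_of_le_one_right (by positivity) hx
  have h2 : ‖algebraMap GaussianInt K π ^ (n + 1) * x‖ < 1 :=
    lt_of_le_of_lt h1 (pow_lt_one₀ h3.le h.norm_pi (by omega))
  obtain ⟨P, hP, hPt⟩ := h.exists_tt hd h2
  refine ⟨P, ?_, ?_⟩
  · rw [h.mem_nb_unit hd hP, hPt]
    exact h1
  · unfold dg
    rw [hPt, mul_div_cancel_left₀ _ (pow_ne_zero _ h.pi_ne), hxc]

end DG

end GWA
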